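import Mathlib
import Pool.Agent.H206R2.RhoChain
import Pool.Agent.H361R2.GMain

/-! `rho` is unbounded, by the Maynard-Tao theorem of the starting files. -/

set_option autoImplicit false

namespace Pool.Agent.H690R

open Finset Pool.Agent.H206R2

theorem count_window (n L : ℕ) {ι : Type*} [DecidableEq ι] (S : Finset ι) (b : ι → ℕ)
    (hb : ∀ i ∈ S, 1 ≤ b i ∧ b i ≤ L) (hinj : ∀ i ∈ S, ∀ j ∈ S, b i = b j → i = j)
    (hp : ∀ i ∈ S, (n + b i).Prime) :
    Nat.primeCounting n + S.card ≤ Nat.primeCounting (n + L) := by
  classical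
  have e : ∀ m, Nat.primeCounting m = ((Finset.range (m + 1)).filter Nat.Prime).card := by
    intro m
    simp only [Nat.primeCounting, Nat.primeCounting']
    rw [Nat.count_eq_card_filter_range]
  rw [e n, e (n + L)]
  have hcard : (S.image (fun i => n + b i)).card = S.card := by
    apply Finset.card_image_of_injOn
    intro i hi j hj hij
    simp only at hij
    exact hinj i hi j hj (by omega)
  rw [← hcard, ← Finset.card_union_of_disjoint]
  · apply Finset.card_le_card
    intro x hx
    rw [Finset.mem_union, Finset.mem_filter, Finset.mem_image] at hx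
    rw [Finset.mem_filter, Finset.mem_range]
    rcases hx with ⟨h1, h2⟩ | ⟨i, hi, rfl⟩
    · rw [Finset.mem_range] at h1
      exact ⟨by omega, h2⟩
    · have := hb i hi
      exact ⟨by omega, hp i hi⟩
  · rw [Finset.disjoint_left]
    intro x hx hx2
    rw [Finset.mem_filter, Finset.mem_range] at hx
    rw [Finset.mem_image] at hx2
    obtain ⟨i, hi, rfl⟩ := hx2
    have := hb i hi
    omega

theorem rho_unbounded (N : ℕ) : ∃ a, N ≤ rho a := by
  classical
  obtain ⟨k, hk2, h⟩ := Pool.Agent.H361R2.GM.maynardTaoG (N + 1) (by omega)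
  obtain ⟨M, hf, hMd⟩ : ∃ M : ℕ, 1 ≤ M ∧ ∀ p : ℕ, p.Prime → p ≤ k + 1 → p ∣ M :=
    ⟨Nat.factorial (k + 1), Nat.factorial_pos _, fun p hp hle => (hp.dvd_factorial).2 hle⟩
  set a : Fin k → ℕ := fun _ => 1 with ha
  set b : Fin k → ℕ := fun i => M * (i.val + 1) with hb
  have hb1 : ∀ i, 1 ≤ b i := fun i => Nat.mul_pos hf (Nat.succ_pos _)
  have hbinj : ∀ i j, b i = b j → i = j := by
    intro i j hij
    have := Nat.eq_of_mul_eq_mul_left hf hij
    exact Fin.ext (by omega)
  obtain ⟨δ, hδ0, hδ1, x₀, hx⟩ := h a b (fun _ => le_rfl) hb1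
    (by
      intro i j hij hab
      simp only [ha, one_mul] at hab
      exact hij (hbinj j i hab).symm)
    (by
      intro p hp
      rcases Nat.lt_or_ge (k + 1) p with hlt | hle
      · have : Fact p.Prime := ⟨hp⟩
        by_contra hcon
        push Not at hcon
        have hcov : (Finset.univ : Finset (ZMod p)) ⊆
            insert 0 (Finset.univ.image (fun i : Fin k => -((b i : ℕ) : ZMod p))) := by
          intro x _
          rw [Finset.mem_insert, Finset.mem_image]
          by_cases hx0 : x = 0
          · exact Or.inl hx0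
          · right
            have hnd : ¬ p ∣ x.val := by
              intro hd
              apply hx0
              have := (ZMod.natCast_eq_zero_iff x.val p).2 hd
              rwa [ZMod.natCast_zmod_val] at this
            obtain ⟨i, hi⟩ := hcon x.val hnd
            refine ⟨i, Finset.mem_univ _, ?_⟩
            have h2 := (ZMod.natCast_eq_zero_iff _ p).2 hi
            simp only [ha, one_mul, Nat.cast_add, ZMod.natCast_zmod_val] at h2
            exact (eq_neg_of_add_eq_zero_left h2).symm
        have h1 := Finset.card_le_card hcov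
        rw [Finset.card_univ, ZMod.card] at h1
        have h2 := (Finset.card_insert_le (0 : ZMod p)
          (Finset.univ.image (fun i : Fin k => -((b i : ℕ) : ZMod p))))
        have h3 := Finset.card_image_le (s := (Finset.univ : Finset (Fin k)))
          (f := fun i : Fin k => -((b i : ℕ) : ZMod p))
        rw [Finset.card_univ, Fintype.card_fin] at h3
        omega
      · refine ⟨1, fun h1 => hp.one_lt.ne' (Nat.dvd_one.1 h1), fun i hi => ?_⟩
        have h2 : p ∣ b i := Dvd.dvd.mul_right (hMd p hp hle) _
        simp only [ha, one_mul] at hi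
        exact hp.one_lt.ne' (Nat.dvd_one.1 ((Nat.dvd_add_left h2).1 hi)))
  set L : ℕ := M * k with hL
  refine ⟨L, ?_⟩
  obtain ⟨X, hX⟩ := Filter.eventually_atTop.1 (rho_upper L)
  -- a large good `n`
  have hgood : ∃ n, X < n ∧
      N + 1 + 1 ≤ (univ.filter (fun i : Fin k => (a i * n + b i).Prime)).card := by
    by_contra hcon
    push Not at hcon
    have hbound : ∀ x : ℝ, x₀ ≤ x → x ^ (1 - δ / 2) ≤ ((Finset.range (X + 1)).card : ℝ) := by
      intro x hx1
      refine (hx x hx1).trans ?_
      norm_cast
      apply Finset.card_le_card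
      intro n hn
      rw [Finset.mem_filter] at hn
      rw [Finset.mem_range]
      by_contra hnX
      have h1 := hcon n (by omega)
      have h2 := hn.2.2
      omega
    have htend := (tendsto_rpow_atTop (show 0 < 1 - δ / 2 by linarith)).eventually_gt_atTop
      ((Finset.range (X + 1)).card : ℝ)
    obtain ⟨x, hx1, hx2⟩ := (htend.and (Filter.eventually_ge_atTop x₀)).exists
    exact absurd (hbound x hx2) (not_le.2 hx1)
  obtain ⟨n, hnX, hn⟩ := hgood
  have h1 := hX n hnX.le
  have h2 := count_window n L (univ.filter (fun i : Fin k => (a i * n + b i).Prime)) b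
    (fun i _ => ⟨hb1 i, Nat.mul_le_mul_left M (by have := i.isLt; omega)⟩)
    (fun i _ j _ hij => hbinj i j hij)
    (fun i hi => by
      have := (Finset.mem_filter.1 hi).2
      simpa only [ha, one_mul] using this)
  omega

end Pool.Agent.H690R
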