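import Mathlib
import Pool.Agent.H206R2.RhoChain

/-! The operator `F ↦ F⁺`, `F⁺(y) = limsup_x (F(x+y) - F(x))`, on counting functions, and the chain
argument (after helper206, `RhoChain`) for windows which are extremal up to a bounded defect. -/

set_option autoImplicit false

namespace Pool.Agent.H690R

open Filter Pool.Agent.H206R2

/-- `F` is nondecreasing and grows by at most one at each step. -/
structure Cnt (F : ℕ → ℕ) : Prop where
  mono : ∀ a b, a ≤ b → F a ≤ F b
  lip : ∀ x y, F (x + y) ≤ F x + y

/-- `up F y = limsup_{x → ∞} (F (x + y) - F x)`. -/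
noncomputable def up (F : ℕ → ℕ) (y : ℕ) : ℕ :=
  Filter.limsup (fun x : ℕ => F (x + y) - F x) Filter.atTop

theorem up_pi : up Nat.primeCounting = rho := rfl

theorem cnt_pi : Cnt Nat.primeCounting := ⟨fun _ _ h => pc_mono h, pc_add_le⟩

theorem up_upper {F : ℕ → ℕ} (hF : Cnt F) (y : ℕ) : ∀ᶠ x in atTop, F (x + y) ≤ F x + up F y := by
  have hb : IsBoundedUnder (· ≤ ·) atTop (fun x : ℕ => F (x + y) - F x) :=
    ⟨y, by
      rw [eventually_map]
      exact Eventually.of_forall fun x => by
        have := hF.lip x y
        show F (x + y) - F x ≤ y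
        omega⟩
  have h : ∀ᶠ x in atTop, F (x + y) - F x < up F y + 1 := by
    apply eventually_lt_of_limsup_lt _ hb
    exact Nat.lt_succ_self _
  filter_upwards [h] with x hx
  omega

theorem up_attained {F : ℕ → ℕ} (hF : Cnt F) (y : ℕ) :
    ∃ᶠ x in atTop, F (x + y) = F x + up F y := by
  have hcb : IsCoboundedUnder (· ≤ ·) atTop (fun x : ℕ => F (x + y) - F x) := by
    apply IsBoundedUnder.isCoboundedUnder_le
    exact ⟨0, by
      rw [eventually_map]
      exact Eventually.of_forall fun x => Nat.zero_le _⟩
  have h1 : ∃ᶠ x in atTop, F x + up F y ≤ F (x + y) := by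
    rcases Nat.eq_zero_or_pos (up F y) with h0 | h0
    · refine (Eventually.of_forall fun x => ?_).frequently
      rw [h0]
      exact hF.mono _ _ (Nat.le_add_right _ _)
    · have h : ∃ᶠ x in atTop, up F y - 1 < F (x + y) - F x := by
        apply frequently_lt_of_lt_limsup hcb
        show up F y - 1 < up F y
        omega
      exact h.mono fun x hx => by omega
  exact (h1.and_eventually (up_upper hF y)).mono fun x hx => le_antisymm hx.2 hx.1

theorem up_mono {F : ℕ → ℕ} (hF : Cnt F) {a b : ℕ} (h : a ≤ b) : up F a ≤ up F b := by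
  obtain ⟨x, hx1, hx2⟩ := ((up_attained hF a).and_eventually (up_upper hF b)).exists
  have := hF.mono (x + a) (x + b) (by omega)
  omega

theorem up_add {F : ℕ → ℕ} (hF : Cnt F) (a b : ℕ) : up F (a + b) ≤ up F a + up F b := by
  obtain ⟨xa, ha⟩ := eventually_atTop.1 (up_upper hF a)
  obtain ⟨xb, hb⟩ := eventually_atTop.1 (up_upper hF b)
  obtain ⟨x, hx1, hx2⟩ := ((up_attained hF (a + b)).and_eventually
    (eventually_ge_atTop (max xa xb))).exists
  have h1 := ha x (le_trans (le_max_left _ _) hx2)
  have h2 := hb (x + a) (le_trans (le_trans (le_max_right _ _) hx2) (Nat.le_add_right _ _))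
  rw [add_assoc] at h2
  omega

theorem up_le {F : ℕ → ℕ} (hF : Cnt F) (y : ℕ) : up F y ≤ y := by
  obtain ⟨x, hx⟩ := (up_attained hF y).exists
  have := hF.lip x y
  omega

theorem cnt_up {F : ℕ → ℕ} (hF : Cnt F) : Cnt (up F) :=
  ⟨fun _ _ h => up_mono hF h, fun x y => by
    have h1 := up_add hF x y
    have h2 := up_le hF y
    omega⟩

/-- The window `(t, t+b]` is extremal for `F` up to the defect `D`. -/
def ExtD (F : ℕ → ℕ) (D b t : ℕ) : Prop := F t + up F b ≤ F (t + b) + D

/-- Chain lemma: if for every `b ≥ a` there are infinitely many windows `(t,t+b]`, extremal up to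
the defect `D`, across which `up F` is additive, then windows of length `a` which are extremal up
to the defect `D` start at all the differences of a sequence. -/
theorem chain {F : ℕ → ℕ} (hF : Cnt F) (a D : ℕ)
    (H : ∀ b, a ≤ b → ∃ᶠ t in atTop, ExtD F D b t ∧ up F t + up F b ≤ up F (t + b)) (n : ℕ) :
    ∃ f : ℕ → ℕ, f 0 = a ∧ (∀ i, i < n → f i < f (i + 1)) ∧
      (∀ i j, i < j → j ≤ n → ExtD F D a (f j - f i)) ∧
      (∀ᶠ x in atTop, ExtD F D (f n) x → ∀ i, i ≤ n → ExtD F D a (x + (f n - f i))) := by
  induction n with
  | zero =>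
    refine ⟨fun _ => a, rfl, ?_, ?_, ?_⟩
    · intro i hi; omega
    · intro i j h1 h2; omega
    · refine Eventually.of_forall fun x hx i hi => ?_
      simpa using hx
  | succ n ih =>
    obtain ⟨f, h0, hinc, hpair, hev⟩ := ih
    have hmono : ∀ i, i ≤ n → a ≤ f i := by
      intro i
      induction i with
      | zero => intro _; rw [h0]
      | succ k ihk =>
        intro hk
        have := hinc k (by omega)
        have := ihk (by omega)
        omega
    have hle : ∀ i, i ≤ n → f i ≤ f n := by
      intro i hi
      obtain ⟨d, rfl⟩ := Nat.exists_eq_add_of_le hi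
      clear hi
      have : ∀ e, e ≤ d → f i ≤ f (i + e) := by
        intro e
        induction e with
        | zero => intro _; rfl
        | succ k ihk =>
          intro hk
          have h1 := ihk (by omega)
          have h2 := hinc (i + k) (by omega)
          rw [← add_assoc]
          omega
      exact this d le_rfl
    obtain ⟨t, ⟨hext, hadd⟩, hevt, htpos⟩ :=
      ((H (f n) (hmono n le_rfl)).and_eventually
        (hev.and (eventually_ge_atTop (1 : ℕ)))).exists
    refine ⟨fun i => if i ≤ n then f i else t + f n, ?_, ?_, ?_, ?_⟩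
    · simp [h0]
    · intro i hi
      rcases Nat.lt_or_ge i n with h | h
      · have h1 : i ≤ n := by omega
        have h2 : i + 1 ≤ n := by omega
        simp only [h1, h2, if_true]
        exact hinc i h
      · have : i = n := by omega
        subst this
        have h2 : ¬ (i + 1 ≤ i) := by omega
        simp only [le_refl, if_true, h2, if_false]
        omega
    · intro i j hij hj
      rcases Nat.lt_or_ge n j with h | h
      · have h1 : i ≤ n := by omega
        have h2 : ¬ (j ≤ n) := by omega
        simp only [h1, h2, if_true, if_false]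
        have h3 := hevt hext i h1
        have h4 : t + f n - f i = t + (f n - f i) := by
          have := hle i h1
          omega
        rw [h4]
        exact h3
      · have h1 : i ≤ n := by omega
        simp only [h1, h, if_true]
        exact hpair i j hij h
    · have h2 : ¬ (n + 1 ≤ n) := by omega
      simp only [h2, if_false]
      obtain ⟨X1, hX1⟩ := eventually_atTop.1 hev
      obtain ⟨X2, hX2⟩ := eventually_atTop.1 (up_upper hF t)
      refine eventually_atTop.2 ⟨max X1 X2, fun x hx hE i hi => ?_⟩
      have hx1 : X1 ≤ x := le_trans (le_max_left _ _) hx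
      have hx2 : X2 ≤ x := le_trans (le_max_right _ _) hx
      have hE' : F x + up F (t + f n) ≤ F (x + (t + f n)) + D := hE
      have hpre : ExtD F D (f n) x := by
        have a2 := hX2 (x + f n) (by omega)
        rw [show x + f n + t = x + (t + f n) by ring] at a2
        unfold ExtD
        omega
      have hsuf : ExtD F D (f n) (x + t) := by
        have a2 := hX2 x hx2
        unfold ExtD
        rw [show x + t + f n = x + (t + f n) by ring]
        omega
      rcases Nat.lt_or_ge n i with h | h
      · have h3 : ¬ (i ≤ n) := by omega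
        simp only [h3, if_false]
        have := hX1 x hx1 hpre n le_rfl
        simpa using this
      · simp only [h, if_true]
        have h3 := hX1 (x + t) (by omega) hsuf i h
        have h4 : x + (t + f n - f i) = x + t + (f n - f i) := by
          have := hle i h
          omega
        rw [h4]
        exact h3

/-- the numbers `d + 1, ..., d + a`, `d` a positive multiple of `a !`, include at most one prime -/
theorem few_primes {a d : ℕ} (hd : 0 < d) (hdvd : a.factorial ∣ d) :
    Nat.primeCounting (d + a) ≤ Nat.primeCounting d + 1 := by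
  have hstep : ∀ k, 1 ≤ k → k ≤ a → Nat.primeCounting (d + k) ≤ Nat.primeCounting d + 1 := by
    intro k
    induction k with
    | zero => intro h; omega
    | succ k ihk =>
      intro _ hk
      rcases Nat.eq_zero_or_pos k with hk0 | hk0
      · subst hk0
        have := pc_add_le d 1
        simpa using this
      · have h1 := ihk hk0 (by omega)
        have hnp : ¬ (d + k + 1).Prime := by
          intro hp
          have hdk : (k + 1) ∣ d + k + 1 := by
            have e1 : (k + 1) ∣ a.factorial := Nat.dvd_factorial (by omega) hk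
            have e2 : (k + 1) ∣ d := e1.trans hdvd
            rw [add_assoc]
            exact Dvd.dvd.add e2 dvd_rfl
          rcases (Nat.dvd_prime hp).1 hdk with h | h
          · omega
          · omega
        have h2 : Nat.primeCounting (d + k + 1) = Nat.primeCounting (d + k) := by
          simp only [Nat.primeCounting, Nat.primeCounting']
          rw [Nat.count_succ, if_neg hnp]
          rfl
        rw [← add_assoc, h2]
        exact h1
  rcases Nat.eq_zero_or_pos a with ha | ha
  · subst ha; simp
  · exact hstep a ha le_rfl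

/-- If `F` differs from `π` by at most `C` and `up F` is additive across infinitely many windows
with defect `≤ D` of every length `≥ a`, then `up F a ≤ 2 C + D + 1`. -/
theorem up_small {F : ℕ → ℕ} (hF : Cnt F) (C : ℕ)
    (hC : ∀ y, F y ≤ Nat.primeCounting y + C ∧ Nat.primeCounting y ≤ F y + C) (a D : ℕ)
    (H : ∀ b, a ≤ b → ∃ᶠ t in atTop, ExtD F D b t ∧ up F t + up F b ≤ up F (t + b)) :
    up F a ≤ 2 * C + D + 1 := by
  set M := a.factorial with hM
  have hMpos : 0 < M := Nat.factorial_pos a
  obtain ⟨f, h0, hinc, hpair, -⟩ := chain hF a D H M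
  obtain ⟨i, hi, j, hj, hij, hmod⟩ : ∃ i ∈ Finset.range (M + 1), ∃ j ∈ Finset.range (M + 1),
      i ≠ j ∧ f i % M = f j % M := by
    apply Finset.exists_ne_map_eq_of_card_lt_of_maps_to (t := Finset.range M)
    · simp
    · intro i _
      simp only [Finset.coe_range, Set.mem_Iio]
      exact Nat.mod_lt _ hMpos
  have key : ∀ i j, i < j → j ≤ M → f i % M = f j % M → up F a ≤ 2 * C + D + 1 := by
    intro i j hij hj hmod
    have hlt : f i < f j := by
      obtain ⟨d, hd⟩ := Nat.exists_eq_add_of_lt hij
      have : ∀ e, i + e + 1 ≤ M → f i < f (i + e + 1) := by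
        intro e
        induction e with
        | zero => intro h; exact hinc i (by omega)
        | succ k ihk =>
          intro h
          have h1 := ihk (by omega)
          have h2 := hinc (i + k + 1) (by omega)
          have : i + (k + 1) + 1 = i + k + 1 + 1 := by ring
          rw [this]
          omega
      rw [hd]
      exact this d (by omega)
    have hdvd : M ∣ f j - f i := (Nat.modEq_iff_dvd' hlt.le).1 hmod
    have hE := hpair i j hij hj
    set d := f j - f i with hd
    have hdpos : 0 < d := by omega
    have h1 := few_primes hdpos hdvd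
    have h2 := (hC (d + a)).1
    have h3 := (hC d).2
    unfold ExtD at hE
    omega
  simp only [Finset.mem_range] at hi hj
  rcases Nat.lt_or_ge i j with h | h
  · exact key i j h (by omega) hmod
  · exact key j i (by omega) (by omega) hmod.symm

/-- The main step. -/
theorem strict {F : ℕ → ℕ} (hF : Cnt F) (C : ℕ)
    (hC : ∀ y, F y ≤ Nat.primeCounting y + C ∧ Nat.primeCounting y ≤ F y + C) (a D : ℕ)
    (ha : 2 * C + D + 2 ≤ up F a) :
    ∃ b, a ≤ b ∧ ∀ᶠ t in atTop, F t + up F b ≤ F (t + b) + D →
      up F (t + b) + 1 ≤ up F t + up F b := by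
  by_contra hcon
  have H : ∀ b, a ≤ b → ∃ᶠ t in atTop, ExtD F D b t ∧ up F t + up F b ≤ up F (t + b) := by
    intro b hb hn
    apply hcon
    refine ⟨b, hb, ?_⟩
    filter_upwards [hn] with t ht hE
    by_contra h
    exact ht ⟨hE, by omega⟩
  have h1 := up_small hF C hC a D H
  omega

/-- `up F` and `rho` differ by at most `2 C` if `F` and `π` differ by at most `C`. -/
theorem up_near {F : ℕ → ℕ} (hF : Cnt F) (C : ℕ)
    (hC : ∀ y, F y ≤ Nat.primeCounting y + C ∧ Nat.primeCounting y ≤ F y + C) (b : ℕ) :
    up F b ≤ rho b + 2 * C ∧ rho b ≤ up F b + 2 * C := by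
  constructor
  · obtain ⟨x, hx1, hx2⟩ := ((up_attained hF b).and_eventually (rho_upper b)).exists
    have h1 := (hC (x + b)).1
    have h2 := (hC x).2
    omega
  · obtain ⟨x, hx1, hx2⟩ := ((rho_attained b).and_eventually (up_upper hF b)).exists
    have h1 := (hC (x + b)).2
    have h2 := (hC x).1
    omega

/-- If `π - ρ` is bounded, then `(F⁺)⁺ < F⁺` at arbitrarily large places for every `F` at bounded
distance from `π`. -/
theorem up_up_lt {F : ℕ → ℕ} (hF : Cnt F) (C : ℕ)
    (hC : ∀ y, F y ≤ Nat.primeCounting y + C ∧ Nat.primeCounting y ≤ F y + C) (G : ℕ)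
    (hG : ∀ y, rho y ≤ Nat.primeCounting y + G ∧ Nat.primeCounting y ≤ rho y + G) (B : ℕ) :
    ∃ b, B ≤ b ∧ (∀ᶠ t in atTop, up F (t + b) + 1 ≤ up F t + up F b) ∧
      up (up F) b < up F b := by
  set D := 2 * (2 * C + G) + 2 * C with hD
  -- a length with large `up F`
  obtain ⟨a, ha⟩ : ∃ a, 2 * C + D + 2 ≤ up F (max a B) := by
    obtain ⟨a, ha⟩ := (Filter.tendsto_atTop_atTop.1 Nat.tendsto_primeCounting)
      (2 * C + D + 2 + G + 2 * C)
    refine ⟨a, ?_⟩
    have h1 := ha (max a B) (le_max_left _ _)
    have h2 := (hG (max a B)).2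
    have h3 := (up_near hF C hC (max a B)).2
    omega
  obtain ⟨b, hb, hev⟩ := strict hF C hC (max a B) D ha
  have hst : ∀ᶠ t in atTop, up F (t + b) + 1 ≤ up F t + up F b := by
    filter_upwards [hev] with t ht
    by_contra hcon
    apply hcon
    apply ht
    have h1 := (hC (t + b)).2
    have h2 := (hC t).1
    have h3 := (hG (t + b)).1
    have h4 := (hG t).2
    have h5 := (up_near hF C hC (t + b)).1
    have h6 := (up_near hF C hC t).2
    omega
  refine ⟨b, le_trans (le_max_right _ _) hb, hst, ?_⟩
  obtain ⟨t, ht1, ht2⟩ := ((up_attained (cnt_up hF) b).and_eventually hst).exists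
  omega

theorem up_congr {F G : ℕ → ℕ} (h : ∀ᶠ x in atTop, F x = G x) : up F = up G := by
  funext y
  unfold up
  apply Filter.limsup_congr
  have h2 : ∀ᶠ x in atTop, F (x + y) = G (x + y) := by
    obtain ⟨X, hX⟩ := eventually_atTop.1 h
    exact eventually_atTop.2 ⟨X, fun x hx => hX (x + y) (by omega)⟩
  filter_upwards [h, h2] with x h1 h3
  rw [h1, h3]

end Pool.Agent.H690R
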